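import Pool.Agent.Lib.MP_a31e1e_gt.Interfaces

/-!
# Assembly of project TIGHT (MP_a31e1e_gt)

`main_of_modules`: the main statement from the module statements.
-/

open scoped ContDiff Manifold Topology RealInnerProductSpace
open Set Metric

namespace Pool.Agent.Tight

/-- charts for `θ ∘ f` from charts for `f` -/
lemma IsChart.comp {M : Type} [TopologicalSpace M] {f : M → E3} {p : M} {V : Set E2}
    {φ : E2 → M} {a : E2} (h : IsChart f p V φ a) {ψ θ : E3 → E3} (hψ : ContDiff ℝ ∞ ψ)
    (hθ : ContDiff ℝ ∞ θ) (hr : ∀ x, ψ (θ x) = x) : IsChart (θ ∘ f) p V φ a where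
  isOpen := h.isOpen
  mem := h.mem
  map := h.map
  cont := h.cont
  inj := h.inj
  openMap := h.openMap
  smooth := hθ.comp_contDiffOn h.smooth
  imm := by
    intro b hb
    have hd : DifferentiableAt ℝ (f ∘ φ) b :=
      ((h.smooth.contDiffAt (h.isOpen.mem_nhds hb)).differentiableAt (by simp))
    have hdθ : DifferentiableAt ℝ θ ((f ∘ φ) b) := (hθ.differentiable (by simp)) _
    have hdψ : DifferentiableAt ℝ ψ (θ ((f ∘ φ) b)) := (hψ.differentiable (by simp)) _
    have e : (f ∘ φ) = ψ ∘ (θ ∘ (f ∘ φ)) := by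
      funext x; simp [hr]
    have h2 : DifferentiableAt ℝ (θ ∘ (f ∘ φ)) b := hdθ.comp b hd
    have h3 : fderiv ℝ (f ∘ φ) b
        = (fderiv ℝ ψ (θ ((f ∘ φ) b))).comp (fderiv ℝ (θ ∘ (f ∘ φ)) b) := by
      conv_lhs => rw [e]
      exact fderiv_comp b hdψ h2
    have h4 := h.imm b hb
    rw [h3] at h4
    have h5 : Function.Injective (fderiv ℝ (θ ∘ (f ∘ φ)) b) := by
      intro u v huv
      apply h4
      simp [huv]
    simpa [Function.comp_assoc] using h5

theorem main_of_modules (hTrans : TransStatement) (hComp : CompStatement)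
    (hModel : ModelStatement) (hTight : TightStatement) (hAlg : AlgStatement)
    (hCW : CWStatement) (hAtlas : AtlasStatement) (hClopen : ClopenStatement) :
    MainStatement := by
  obtain ⟨ρ, l, hp⟩ := hTrans
  obtain ⟨hc, hne⟩ := hComp ρ l hp
  have hl1 : l ≤ 1 / 100 := by
    have := hp.hl'; have := hp.hρ'; linarith
  let f : Surf ρ l → E3 := fun p => (p : E3 × ℂ).1
  have hM : Model l f := hModel ρ l hp
  haveI : CompactSpace (Surf ρ l) := isCompact_iff_compactSpace.mp hc
  haveI : Nonempty (Surf ρ l) := hne.to_subtype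
  obtain ⟨ε, hε, hT⟩ := hTight l hp.hl hl1 (Surf ρ l) f hM
  obtain ⟨P, ψ, θ, U, hψ, hU, hAU, hPU⟩ := hAlg ρ l hp ε hε
  have hTPP : TPP (θ ∘ f) := hT ψ θ hψ
  obtain ⟨cs, hman, hsm, himm⟩ := hAtlas (Surf ρ l) (θ ∘ f) (fun p => by
    obtain ⟨V, φ, a, h⟩ := hM.charts p
    exact ⟨V, φ, a, h.comp hψ.smooth hψ.smooth' hψ.right⟩)
  have hcont : Continuous (θ ∘ f) := hψ.smooth'.continuous.comp hM.cont
  have hrange : Set.range (θ ∘ f) = θ '' Img ρ l := by
    rw [Set.range_comp]
    congr 1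
    ext x
    constructor
    · rintro ⟨p, rfl⟩
      exact ⟨p, p.2, rfl⟩
    · rintro ⟨q, hq, rfl⟩
      exact ⟨⟨q, hq⟩, rfl⟩
  have hconn : ConnectedSpace (Surf ρ l) := by
    haveI : PreconnectedSpace (Surf ρ l) := by
      constructor
      let v : E3 := EuclideanSpace.single 0 1
      have hv : v ≠ 0 := by
        intro h
        have := congrArg (fun x : E3 => x 0) h
        simp [v] at this
      have hb : ∃ c : ℝ, ∀ p : Surf ρ l, c < ⟪v, (θ ∘ f) p⟫ := by
        have hcc : Continuous (fun p : Surf ρ l => ⟪v, (θ ∘ f) p⟫) :=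
          continuous_const.inner hcont
        obtain ⟨p₀, -, hp₀⟩ := isCompact_univ.exists_isMinOn
          (Set.univ_nonempty) hcc.continuousOn
        refine ⟨⟪v, (θ ∘ f) p₀⟫ - 1, fun p => ?_⟩
        have := hp₀ (Set.mem_univ p)
        simp only [Set.mem_setOf_eq] at this
        linarith
      obtain ⟨c, hc⟩ := hb
      have h1 := hTPP v c hv
      have h2 : {p : Surf ρ l | c < ⟪v, (θ ∘ f) p⟫} = Set.univ := by
        ext p; simp only [Set.mem_setOf_eq, Set.mem_univ, iff_true]; exact hc p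
      rwa [h2] at h1
    exact ⟨inferInstance⟩
  refine ⟨Surf ρ l, inferInstance, cs, θ ∘ f, inferInstance, inferInstance, hconn, hman,
    hCW ρ l hp, hsm, himm, hTPP, ?_⟩
  have hA : IsCompact (θ '' Img ρ l) := by
    rw [← hrange]
    exact isCompact_range hcont
  have hAne : (θ '' Img ρ l).Nonempty := by
    rw [← hrange]; exact Set.range_nonempty _
  obtain ⟨h1, h2, h3⟩ := hClopen P (θ '' Img ρ l) U hA hAne hU
    (by rintro x ⟨y, hy, rfl⟩; exact hAU y hy)
    (by
      intro x hx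
      rw [hPU x hx]
      constructor
      · intro h; exact ⟨ψ x, h, hψ.left x⟩
      · rintro ⟨y, hy, rfl⟩; rwa [hψ.right])
  refine ⟨P, h1, by rw [hrange]; exact h2, fun p => ?_⟩
  rw [hrange]
  apply h3
  rw [← hrange]
  exact Set.mem_range_self p

end Pool.Agent.Tight
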