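import Pool.Agent.Lib.MP_a31e1e_gt.Interfaces

/-!
# The CW structure of the surface (project TIGHT, MP_a31e1e_gt)

14 vertices, 24 edges, 7 two-cells.  The triangle is divided into three kites
`K_k = {ell k >= ell j for all j}`; in the kite `K_k` we use the coordinates `(β,σ)` with
`ell k = 3 - σ`, `ell (k+1) = σ β`, `ell (k+2) = σ (1-β)` (rays from the vertex of the triangle).
-/

open scoped ContDiff Manifold Topology RealInnerProductSpace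
open Set Metric

namespace Pool.Agent.Tight

noncomputable section

/-- planar point with values `a0, a1, a2` (of sum 3) of `ell 0, ell 1, ell 2` -/
def fe (a0 a1 a2 : ℝ) : E3 := pl ((a1 - a2) / √3) (1 - a0)

/-- kite coordinates -/
def kp (k : Fin 3) (β σ : ℝ) : E3 :=
  match k with
  | 0 => fe (3 - σ) (σ * β) (σ * (1 - β))
  | 1 => fe (σ * (1 - β)) (3 - σ) (σ * β)
  | 2 => fe (σ * β) (σ * (1 - β)) (3 - σ)

/-- `w²` on the outer (`ε = 1`) or inner (`ε = -1`) sheet in kite coordinates -/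
def qW (ε β σ : ℝ) : ℝ :=
  -3 + 12 * σ - 4 * σ ^ 2 * (1 - β + β ^ 2) + ε * (8 * σ * √(β * (1 - β) * (3 - σ)))

/-- the first zero of `qW` on the ray -/
def arc (ε β : ℝ) : ℝ := sInf {σ : ℝ | 0 ≤ σ ∧ 0 ≤ qW ε β σ}

/-- the end of the ray in the kite -/
def far (β : ℝ) : ℝ := 3 / (1 + max β (1 - β))

/-- the end of the ray in the kite minus the disc of radius `2ρ` -/
def farC (ρ β : ℝ) : ℝ :=
  min (far β) (3 / (2 * (1 - β + β ^ 2)) * (1 - √(1 - (1 - β + β ^ 2) * (4 - 4 * ρ ^ 2) / 3)))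

/-- point over the planar point `x` with height `w` and label `0` -/
def lift (x : E3) (w : ℝ) : E3 × ℂ := (!₂[x 0, x 1, w], 0)

/-- the wedge cells -/
def wedge (ρ : ℝ) (o : Bool) (k : Fin 3) (β s : ℝ) : E3 × ℂ :=
  let ε : ℝ := if o then 1 else -1
  let f : ℝ := if o = false ∧ s < 0 then farC ρ β else far β
  let σ : ℝ := arc ε β + |s| * (f - arc ε β)
  lift (kp k β σ) ((if s < 0 then -1 else 1) * √(qW ε β σ))

/-- the four sheets: outer upper, outer lower, roof, floor -/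
def sheet (i : Fin 4) (x : E3) : ℝ :=
  match i with
  | 0 => √(qo x)
  | 1 => -√(qo x)
  | 2 => √(qq x)
  | 3 => -√(qq x)

def onSheet (i : Fin 4) (x : E3) : E3 × ℂ := lift x (sheet i x)

/-- the midpoints of the sides of the triangle -/
def ev (j : Fin 3) : E3 :=
  match j with
  | 0 => pl 0 1
  | 1 => pl (-√3 / 2) (-1 / 2)
  | 2 => pl (√3 / 2) (-1 / 2)

/-- the circle of radius `2ρ` on the floor -/
def circ (ρ θ : ℝ) : E3 × ℂ := onSheet 3 (pl (2 * ρ * Real.cos θ) (2 * ρ * Real.sin θ))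

/-- angles of the vertices on the circle -/
def ang (i : Fin 6) : ℝ :=
  match i with
  | 0 => 0
  | 1 => Real.pi / 2
  | 2 => Real.pi
  | 3 => 7 * Real.pi / 6
  | 4 => 11 * Real.pi / 6
  | 5 => 2 * Real.pi

/-- the core cell -/
def coreCell (ρ l a b : ℝ) : E3 × ℂ :=
  floorP ρ l !₂[Real.pi * (1 + a) / 2,
    -Real.cos (3 * (Real.pi * (1 + a) / 2)) +
      b * √((2 * ρ / l) ^ 2 - Real.sin (3 * (Real.pi * (1 + a) / 2)) ^ 2)]

/-- index types of the cells -/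
def CI : ℕ → Type
  | 0 => Fin 3 ⊕ (Fin 3 × Bool) ⊕ Fin 5
  | 1 => (Fin 3 × Bool) ⊕ (Fin 3 × Fin 3) ⊕ Fin 3 ⊕ Fin 5 ⊕ Unit
  | 2 => (Bool × Fin 3) ⊕ Unit
  | _ + 3 => Empty

/-- characteristic maps -/
def CPhi (ρ l : ℝ) : (n : ℕ) → CI n → (Fin n → ℝ) → E3 × ℂ
  | 0, Sum.inl i, _ => onSheet i.castSucc (pl 0 0)
  | 0, Sum.inr (Sum.inl (j, b)), _ => onSheet (if b then 0 else 1) (ev j)
  | 0, Sum.inr (Sum.inr i), _ => circ ρ (ang i.castSucc)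
  | 1, Sum.inl (k, d), y => wedge ρ true k (if d then 1 else 0) (y 0)
  | 1, Sum.inr (Sum.inl (i, j)), y => onSheet i.castSucc (((1 + y 0) / 2) • ev j)
  | 1, Sum.inr (Sum.inr (Sum.inl j)), y =>
      onSheet 3 ((2 * ρ + (1 - 2 * ρ) * ((1 + y 0) / 2)) • ev j)
  | 1, Sum.inr (Sum.inr (Sum.inr (Sum.inl i))), y =>
      circ ρ (ang i.castSucc + (ang i.succ - ang i.castSucc) * ((1 + y 0) / 2))
  | 1, Sum.inr (Sum.inr (Sum.inr (Sum.inr ()))), y => floorP ρ l !₂[0, -1 + y 0 * (2 * ρ / l)]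
  | 2, Sum.inl (o, k), y => wedge ρ o k ((1 + y 0) / 2) (y 1)
  | 2, Sum.inr (), y => coreCell ρ l (y 0) (y 1)
  | _ + 3, e, _ => (e : Empty).elim

/-! ## Descriptions of the open cells -/

/-- the point lies in the open kite `k` -/
def InKite (k : Fin 3) (x : E3) : Prop := ∀ j, j ≠ k → ell j x < ell k x
/-- the point lies on the segment from the centre to the side `j` -/
def InSeg (j : Fin 3) (x : E3) : Prop := ∀ i, i ≠ j → ell j x < ell i x ∧ ell i x = ell (i + (i - j)) x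
/-- sheet types away from the cycles (outer upper, outer lower, roof) -/
def OnSh (i : Fin 3) (x : E3) : Prop :=
  match i with
  | 0 => 0 < mm x ∧ 0 < x 2
  | 1 => 0 < mm x ∧ x 2 < 0
  | 2 => mm x < 0 ∧ 0 < x 2
/-- floor points of height close to `-1` -/
def OnFl (x : E3) : Prop := |x 2 + 1| < 1 / 8

/-- description of the open cells -/
def Code (ρ l : ℝ) : (n : ℕ) → CI n → E3 × ℂ → Prop
  | 0, Sum.inl i, z => z.2 = 0 ∧ FS z.1 = 0 ∧ nn z.1 = 0 ∧ OnSh i z.1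
  | 0, Sum.inr (Sum.inl (j, b)), z => z.2 = 0 ∧ FS z.1 = 0 ∧ InSeg j z.1 ∧ ell j z.1 = 0 ∧
      (if b then 0 < z.1 2 else z.1 2 < 0)
  | 0, Sum.inr (Sum.inr i), z => z = circ ρ (ang i.castSucc)
  | 1, Sum.inl (k, d), z => z.2 = 0 ∧ FS z.1 = 0 ∧ InKite k z.1 ∧
      ell (if d then k + 2 else k + 1) z.1 = 0 ∧ nn z.1 < 4
  | 1, Sum.inr (Sum.inl (i, j)), z => z.2 = 0 ∧ FS z.1 = 0 ∧ InSeg j z.1 ∧ 0 < ell j z.1 ∧
      OnSh i z.1
  | 1, Sum.inr (Sum.inr (Sum.inl j)), z => z.2 = 0 ∧ FS z.1 = 0 ∧ InSeg j z.1 ∧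
      0 < ell j z.1 ∧ mm z.1 < 0 ∧ z.1 2 < 0 ∧ 4 * ρ ^ 2 < nn z.1
  | 1, Sum.inr (Sum.inr (Sum.inr (Sum.inl i))), z =>
      ∃ θ, ang i.castSucc < θ ∧ θ < ang i.succ ∧ z = circ ρ θ
  | 1, Sum.inr (Sum.inr (Sum.inr (Sum.inr ()))), z =>
      nn z.1 < 4 * ρ ^ 2 ∧ ∃ t, z = floorP ρ l !₂[0, t]
  | 2, Sum.inl (o, k), z => z.2 = 0 ∧ FS z.1 = 0 ∧ InKite k z.1 ∧ z.1 ∈ PrismO ∧
      (if o then 0 < mm z.1 else mm z.1 < 0 ∧ (0 ≤ z.1 2 ∨ 4 * ρ ^ 2 < nn z.1))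
  | 2, Sum.inr (), z => nn z.1 < 4 * ρ ^ 2 ∧
      ∃ u t, 0 < u ∧ u < Real.pi ∧ z = floorP ρ l !₂[u, t]
  | _ + 3, e, _ => (e : Empty).elim

end

/-! ## Module statements -/

/-- CWK.  Kite coordinates. -/
def KiteStatement : Prop :=
  (∀ (k : Fin 3) (β σ : ℝ), ell k (kp k β σ) = 3 - σ ∧ ell (k + 1) (kp k β σ) = σ * β ∧
    ell (k + 2) (kp k β σ) = σ * (1 - β)) ∧
  (∀ (k : Fin 3) (β σ : ℝ), nn (kp k β σ) = 4 - 4 * σ + 4 / 3 * σ ^ 2 * (1 - β + β ^ 2)) ∧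
  (∀ (k : Fin 3) (β σ : ℝ), tt (kp k β σ) = 4 * σ ^ 2 * (β * (1 - β) * (3 - σ))) ∧
  (∀ (k : Fin 3) (β σ : ℝ), 0 ≤ σ → qo (kp k β σ) = qW 1 β σ ∧
    qq (kp k β σ) = qW (-1) β σ) ∧
  (∀ (k : Fin 3) (x : E3), x ∈ Prism → (∀ j, ell j x ≤ ell k x) → ell k x < 3 →
    ∃ β σ, 0 ≤ β ∧ β ≤ 1 ∧ 0 < σ ∧ σ ≤ far β ∧ kp k β σ 0 = x 0 ∧ kp k β σ 1 = x 1) ∧
  (∀ β, 0 ≤ β → β ≤ 1 → 3 / 2 ≤ far β ∧ far β ≤ 2) ∧
  (∀ x y : E3, (∀ j, ell j x = ell j y) → x 0 = y 0 ∧ x 1 = y 1)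

/-- CWA.  The arcs. -/
def ArcStatement : Prop :=
  (∀ ε : ℝ, ε = 1 ∨ ε = -1 → ContinuousOn (arc ε) (Icc 0 1) ∧
    ∀ β, 0 ≤ β → β ≤ 1 → 0 < arc ε β ∧ arc ε β < 1 ∧
      ∀ σ, 0 ≤ σ → σ ≤ far β → ((0 < qW ε β σ ↔ arc ε β < σ) ∧ (qW ε β σ = 0 ↔ σ = arc ε β))) ∧
  (arc 1 0 = arc (-1) 0 ∧ arc 1 1 = arc (-1) 1) ∧
  (∀ ρ : ℝ, 0 < ρ → ρ ≤ 1 / 100 → Continuous far ∧ Continuous (farC ρ) ∧
    (∀ β, 0 ≤ β → β ≤ 1 → 3 / 2 ≤ farC ρ β ∧ farC ρ β ≤ far β) ∧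
    (farC ρ 0 = far 0 ∧ farC ρ 1 = far 1) ∧
    (∀ (k : Fin 3) (β σ : ℝ), 0 ≤ β → β ≤ 1 → 0 ≤ σ → σ ≤ far β →
      ((σ < farC ρ β → 4 * ρ ^ 2 < nn (kp k β σ)) ∧
       (4 * ρ ^ 2 ≤ nn (kp k β σ) → σ ≤ farC ρ β) ∧
       (σ = farC ρ β → σ < far β → nn (kp k β σ) = 4 * ρ ^ 2) ∧
       (σ = farC ρ β → 4 * ρ ^ 2 ≤ nn (kp k β σ)))))

/-- CWCONT.  Continuity and image of the characteristic maps. -/
def CWContStatement : Prop :=
  ∀ ρ l : ℝ, Par ρ l → ∀ (n : ℕ) (i : CI n), ContinuousOn (CPhi ρ l n i) (closedBall 0 1) ∧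
    MapsTo (CPhi ρ l n i) (closedBall 0 1) (Surf ρ l)

/-- CWINJ. -/
def CWInjStatement : Prop :=
  ∀ ρ l : ℝ, Par ρ l → ∀ (n : ℕ) (i : CI n), InjOn (CPhi ρ l n i) (ball 0 1)

/-- CWCODE.  The open cells satisfy their descriptions. -/
def CWCodeStatement : Prop :=
  ∀ ρ l : ℝ, Par ρ l → ∀ (n : ℕ) (i : CI n), ∀ y ∈ ball (0 : Fin n → ℝ) 1,
    Code ρ l n i (CPhi ρ l n i y)

/-- CWDISJ.  The descriptions are mutually exclusive. -/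
def CWDisjStatement : Prop :=
  ∀ ρ l : ℝ, Par ρ l → ∀ (n : ℕ) (i : CI n) (m : ℕ) (j : CI m) (z : E3 × ℂ), z ∈ Surf ρ l →
    Code ρ l n i z → Code ρ l m j z → (⟨n, i⟩ : Σ n, CI n) = ⟨m, j⟩

/-- CWSURJ.  Every point satisfying a description lies in the corresponding closed cell. -/
def CWSurjStatement : Prop :=
  ∀ ρ l : ℝ, Par ρ l → ∀ (n : ℕ) (i : CI n) (z : E3 × ℂ), z ∈ Surf ρ l → Code ρ l n i z →
    z ∈ CPhi ρ l n i '' closedBall 0 1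

/-- CWCOV.  Every point satisfies a description. -/
def CWCovStatement : Prop :=
  ∀ ρ l : ℝ, Par ρ l → ∀ z ∈ Surf ρ l, ∃ (n : ℕ) (i : CI n), Code ρ l n i z

/-- CWBDRY.  Boundaries of the cells. -/
def CWBdryStatement : Prop :=
  ∀ ρ l : ℝ, Par ρ l → ∀ (n : ℕ) (i : CI n), MapsTo (CPhi ρ l n i) (sphere 0 1)
    (⋃ (m < n) (j : CI m), CPhi ρ l m j '' closedBall 0 1)

instance CI_finite (n : ℕ) : Finite (CI n) :=
  match n with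
  | 0 => inferInstanceAs (Finite (Fin 3 ⊕ (Fin 3 × Bool) ⊕ Fin 5))
  | 1 => inferInstanceAs (Finite ((Fin 3 × Bool) ⊕ (Fin 3 × Fin 3) ⊕ Fin 3 ⊕ Fin 5 ⊕ Unit))
  | 2 => inferInstanceAs (Finite ((Bool × Fin 3) ⊕ Unit))
  | _ + 3 => inferInstanceAs (Finite Empty)

theorem cw_of_modules (h1 : CWBuildStatement) (h2 : CWContStatement) (h3 : CWInjStatement)
    (h4 : CWCodeStatement) (h5 : CWDisjStatement) (h6 : CWSurjStatement) (h7 : CWCovStatement)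
    (h8 : CWBdryStatement) : CWStatement := by
  intro ρ l hp
  have h := h1 (E3 × ℂ) (Surf ρ l) CI (CPhi ρ l) (fun n => CI_finite n)
    (by
      intro n hn
      match n, hn with
      | n + 3, _ => exact inferInstanceAs (IsEmpty Empty))
    (fun n i => (h2 ρ l hp n i).1) (h3 ρ l hp) (fun n i => (h2 ρ l hp n i).2)
    (by
      rintro n i m j ⟨z, ⟨y, hy, rfl⟩, ⟨y', hy', hz⟩⟩
      refine h5 ρ l hp n i m j (CPhi ρ l n i y)
        ((h2 ρ l hp n i).2 (ball_subset_closedBall hy)) (h4 ρ l hp n i y hy) ?_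
      rw [← hz]
      exact h4 ρ l hp m j y' hy')
    (h8 ρ l hp)
    (by
      intro z hz
      obtain ⟨n, i, hc⟩ := h7 ρ l hp z hz
      exact ⟨n, i, h6 ρ l hp n i z hz hc⟩)
  have e0 : Nat.card (CI 0) = 14 := by
    have : Nat.card (CI 0) = Nat.card (Fin 3 ⊕ (Fin 3 × Bool) ⊕ Fin 5) := rfl
    rw [this]; simp [Nat.card_eq_fintype_card]
  have e1 : Nat.card (CI 1) = 24 := by
    have : Nat.card (CI 1)
        = Nat.card ((Fin 3 × Bool) ⊕ (Fin 3 × Fin 3) ⊕ Fin 3 ⊕ Fin 5 ⊕ Unit) := rfl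
    rw [this]; simp [Nat.card_eq_fintype_card]
  have e2 : Nat.card (CI 2) = 7 := by
    have : Nat.card (CI 2) = Nat.card ((Bool × Fin 3) ⊕ Unit) := rfl
    rw [this]; simp [Nat.card_eq_fintype_card]
  rw [e0, e1, e2] at h
  norm_num at h
  exact h

end Pool.Agent.Tight
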