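import Pool.Agent.Lib.MP_a31e1e_gt.Statement

/-!
# MP_a31e1e_gt : a tight algebraic surface in E^3 with odd Euler characteristic

Definitions used in the proof (those of the statement are in `Statement.lean`).  Project TIGHT.
-/

open scoped ContDiff Manifold Topology RealInnerProductSpace
open Set

namespace Pool.Agent.Tight

/-- A tight algebraic surface: a closed connected smooth surface with a tight smooth immersion
into `E^3` whose image is a union of components of a real algebraic set. -/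
def TightAlgebraicSurface (χ : ℤ) : Prop :=
  ∃ (M : Type) (_ : TopologicalSpace M) (_ : ChartedSpace E2 M) (f : M → E3),
    T2Space M ∧ CompactSpace M ∧ ConnectedSpace M ∧ IsManifold (𝓡 2) ∞ M ∧
    HasEulerChar M χ ∧
    ContMDiff (𝓡 2) 𝓘(ℝ, E3) ∞ f ∧
    (∀ p, Function.Injective (mfderiv (𝓡 2) 𝓘(ℝ, E3) f p)) ∧
    TPP f ∧ AlgebraicImage f

/-- The main statement: there is a tight algebraic surface with (odd) Euler characteristic -3. -/
def MainStatement : Prop := TightAlgebraicSurface (-3)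

noncomputable section

/-! ## Polynomials on `E3`; the coordinates are `x 0 = x`, `x 1 = y`, `x 2 = w` -/

/-- `N = x^2 + y^2` -/
def nn (x : E3) : ℝ := x 0 ^ 2 + x 1 ^ 2
/-- `C = y^3 - 3 x^2 y` (minus the imaginary part of `(x+iy)^3`) -/
def cc (x : E3) : ℝ := x 1 ^ 3 - 3 * x 0 ^ 2 * x 1
/-- `D = x^3 - 3 x y^2` (the real part of `(x+iy)^3`) -/
def dd (x : E3) : ℝ := x 0 ^ 3 - 3 * x 0 * x 1 ^ 2
/-- `T = 4 - 3N - C = 4 l0 l1 l2` -/
def tt (x : E3) : ℝ := 4 - 3 * nn x - cc x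
/-- `m = w^2 + 3N - 9` -/
def mm (x : E3) : ℝ := x 2 ^ 2 + 3 * nn x - 9
/-- the polynomial of the tight surface `Sigma` of genus two -/
def FS (x : E3) : ℝ := mm x ^ 2 - 16 * tt x
/-- `Q = 9 - 3N - 4 sqrt T`; the inner sheet of `Sigma` is `w^2 = Q` -/
def qq (x : E3) : ℝ := 9 - 3 * nn x - 4 * √(tt x)
/-- `9 - 3N + 4 sqrt T`; the outer sheet of `Sigma` is `w^2 = Q'` -/
def qo (x : E3) : ℝ := 9 - 3 * nn x + 4 * √(tt x)
/-- the height of the floor of `Sigma` -/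
def hS (x : E3) : ℝ := - √(qq x)

/-- The three linear functions bounding the triangle. -/
def ell (j : Fin 3) (x : E3) : ℝ :=
  match j with
  | 0 => 1 - x 1
  | 1 => 1 + (x 1 + √3 * x 0) / 2
  | 2 => 1 + (x 1 - √3 * x 0) / 2

/-- closed and open prism over the triangle -/
def Prism : Set E3 := {x | ∀ j, 0 ≤ ell j x}
def PrismO : Set E3 := {x | ∀ j, 0 < ell j x}

/-- `Λ = m - 4 sqrt T` (convex on the prism) -/
def Lam (x : E3) : ℝ := mm x - 4 * √(tt x)

/-- the convex body bounded by the outer sheet and the three discs -/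
def Hull : Set E3 := {x | x ∈ Prism ∧ Lam x ≤ 0}

/-- `W = w + 1 + C/2` -/
def WW (x : E3) : ℝ := x 2 + 1 + cc x / 2

/-- the polynomial of the scaled and sheared ruled core -/
def GG (l : ℝ) (x : E3) : ℝ :=
  WW x ^ 3 + 25 * l ^ 2 * (nn x ^ 2 - 3 * l ^ 2 * nn x - 2 * l * dd x) * WW x
    + 250 * l ^ 4 * (nn x - l ^ 2) * cc x

/-- vanishes at the three flat points of the core -/
def flc (l : ℝ) (x : E3) : ℝ := (nn x - 25 * l ^ 2) ^ 2 + WW x ^ 2
/-- vanishes at the flat point `(0,0,1)` of the roof -/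
def flr (x : E3) : ℝ := nn x + (x 2 - 1) ^ 2
/-- the weight: the perturbation of the surface is of size `ϖ^3` -/
def varpi (l : ℝ) (x : E3) : ℝ := tt x ^ 2 * flc l x * flr x

/-! ## The floor with its Moebius core, parametrised by `(u,t) ∈ ℝ²`
(`(u,t)` and `(u+π,-t)` give the same point) -/

def xiX (b : E2) : ℝ := Real.cos (2 * b 0) + b 1 * Real.cos (b 0)
def xiY (b : E2) : ℝ := Real.sin (2 * b 0) - b 1 * Real.sin (b 0)

/-- planar point of `E3` -/
def pl (x y : ℝ) : E3 := !₂[x, y, 0]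

/-- cutoff: `0` for `n ≤ ρ²`, `1` for `n ≥ 4ρ²` -/
def chi (ρ n : ℝ) : ℝ := Real.smoothTransition ((n / ρ ^ 2 - 1) / 3)

/-- the height of the floor over the point `l ξ(u,t)` -/
def floorH (ρ l : ℝ) (b : E2) : ℝ :=
  (1 - chi ρ (nn (pl (l * xiX b) (l * xiY b)))) *
      (-1 - cc (pl (l * xiX b) (l * xiY b)) / 2 - 10 * l ^ 3 * (b 1 * Real.sin (3 * b 0)))
    + chi ρ (nn (pl (l * xiX b) (l * xiY b))) * hS (pl (l * xiX b) (l * xiY b))

def floorX (ρ l : ℝ) (b : E2) : E3 := !₂[l * xiX b, l * xiY b, floorH ρ l b]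

/-- the label separating the sheets of the core -/
def lab (ρ l : ℝ) (b : E2) : ℂ :=
  ((max (ρ ^ 2 / 16 - nn (floorX ρ l b)) 0 : ℝ) : ℂ) * Complex.exp (2 * (b 0 : ℂ) * Complex.I)

/-- the lift of the floor to `E3 × ℂ` -/
def floorP (ρ l : ℝ) (b : E2) : E3 × ℂ := (floorX ρ l b, lab ρ l b)

/-- the part of `Sigma` which is kept -/
def SigPart (ρ : ℝ) : Set E3 :=
  {x | FS x = 0 ∧ nn x < 4 ∧ (4 * ρ ^ 2 ≤ nn x ∨ 1 / 8 ≤ |x 2 + 1|)}

/-- the surface, as a subset of `E3 × ℂ` -/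
def Surf (ρ l : ℝ) : Set (E3 × ℂ) :=
  {p | (∃ b : E2, nn (floorX ρ l b) ≤ 4 * ρ ^ 2 ∧ p = floorP ρ l b) ∨ (p.1 ∈ SigPart ρ ∧ p.2 = 0)}

/-- its image in `E3` -/
def Img (ρ l : ℝ) : Set E3 := Prod.fst '' Surf ρ l

/-! ## Curvature of a parametrised surface -/

def e2 (i : Fin 2) : E2 := EuclideanSpace.single i 1

/-- the determinant of three vectors -/
def det3 (a b c : E3) : ℝ :=
  a 0 * (b 1 * c 2 - b 2 * c 1) - a 1 * (b 0 * c 2 - b 2 * c 0) + a 2 * (b 0 * c 1 - b 1 * c 0)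

/-- second derivative -/
def D2 {E F : Type*} [NormedAddCommGroup E] [NormedSpace ℝ E] [NormedAddCommGroup F]
    [NormedSpace ℝ F] (X : E → F) (a : E) (u v : E) : F := fderiv ℝ (fderiv ℝ X) a u v

/-- unnormalised second fundamental form of a parametrised surface -/
def sff (X : E2 → E3) (a : E2) (i j : Fin 2) : ℝ :=
  det3 (fderiv ℝ X a (e2 0)) (fderiv ℝ X a (e2 1)) (D2 X a (e2 i) (e2 j))

/-- unnormalised Gauss curvature `LN - M²` -/
def curv (X : E2 → E3) (a : E2) : ℝ := sff X a 0 0 * sff X a 1 1 - sff X a 0 1 ^ 2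

/-- the flat points of the floor in the parameter plane -/
def FlatB (b : E2) : Prop := Real.sin (3 * b 0) = 0 ∧ b 1 * Real.cos (3 * b 0) = 4

/-- Admissible parameters: `ρ` is the radius of the modified part of the floor,
`l = s ρ` the size of the core; the last field is the outcome of the transition argument. -/
structure Par (ρ l : ℝ) : Prop where
  hρ : 0 < ρ
  hρ' : ρ ≤ 1 / 100
  hl : 0 < l
  hl' : l ≤ ρ / 100
  hK : ∀ b : E2, ρ ^ 2 ≤ nn (floorX ρ l b) → nn (floorX ρ l b) ≤ 4 * ρ ^ 2 →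
    curv (floorX ρ l) b < 0

/-! ## Interfaces for the perturbation argument -/

/-- The surface `X` at `a` has normal curvature of both signs, quantitatively: every nonzero
covector `α` normal to `X` at `a` is positive on some second derivative `X_uu`, with a lower
bound in terms of the weight `ϖ`. -/
def Strong (c : ℝ) (ϖ : E3 → ℝ) (X : E2 → E3) (a : E2) : Prop :=
  ∀ α : E3 →L[ℝ] ℝ, α ≠ 0 → (∀ u, α (fderiv ℝ X a u) = 0) →
    ∃ u : E2, 0 < α (D2 X a u u) ∧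
      c * ϖ (X a) * ‖α‖ * ‖fderiv ℝ X a u‖ ^ 2 ≤ α (D2 X a u u)

/-- The same for a level surface of `F`. -/
def StrongLevel (c : ℝ) (ϖ : E3 → ℝ) (F : E3 → ℝ) (x : E3) : Prop :=
  ∀ μ : ℝ, μ ≠ 0 → ∃ u : E3, fderiv ℝ F x u = 0 ∧ 0 < μ * D2 F x u u ∧
    c * ϖ x * |μ| * ‖fderiv ℝ F x‖ * ‖u‖ ^ 2 ≤ μ * D2 F x u u

/-- At the point `p` every height function takes values larger than at `p` by at least
a multiple of the third power of the distance, arbitrarily close to `p`. -/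
def Escape {M : Type} [TopologicalSpace M] (f : M → E3) (p : M) : Prop :=
  ∀ v : E3, v ≠ 0 → ∃ κ > 0, ∃ᶠ p' in 𝓝 p, κ * ‖f p' - f p‖ ^ 3 ≤ ⟪v, f p' - f p⟫ ∧ f p' ≠ f p

/-- `φ : V → M` is a chart of `M` at `p = φ a` in which `f` is a smooth immersion. -/
structure IsChart {M : Type} [TopologicalSpace M] (f : M → E3) (p : M) (V : Set E2)
    (φ : E2 → M) (a : E2) : Prop where
  isOpen : IsOpen V
  mem : a ∈ V
  map : φ a = p
  cont : ContinuousOn φ V
  inj : InjOn φ V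
  openMap : ∀ W ⊆ V, IsOpen W → IsOpen (φ '' W)
  smooth : ContDiffOn ℝ ∞ (f ∘ φ) V
  imm : ∀ b ∈ V, Function.Injective (fderiv ℝ (f ∘ φ) b)

/-- The properties of the smooth model needed for the perturbation argument. -/
structure Model (l : ℝ) {M : Type} [TopologicalSpace M] (f : M → E3) : Prop where
  cont : Continuous f
  hull : ∀ p, f p ∈ Hull
  charts : ∀ p, ∃ V φ a, IsChart f p V φ a
  onto : ∀ x ∈ Prism, Lam x = 0 → ∃ p, f p = x
  inj : ∀ p p', Lam (f p) = 0 → f p = f p' → p = p'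
  outer : ∀ p, f p ∈ PrismO → Lam (f p) = 0 → ∀ᶠ p' in 𝓝 p, Lam (f p') = 0
  cyc : ∀ j, IsPreconnected {p | ell j (f p) = 0}
  cyc0 : ∀ p j, ell j (f p) = 0 → mm (f p) = 0
  strong : ∃ c > 0, ∀ p, f p ∈ PrismO → Lam (f p) < 0 →
    (∃ V φ a, IsChart f p V φ a ∧ Strong c (varpi l) (f ∘ φ) a) ∨
    (varpi l (f p) = 0 ∧ Escape f p)

/-- The diffeomorphism `ψ` of `E3` and its inverse `θ`, `ε`-close to the identity relative
to the weight `ϖ`. -/
structure PsiOK (ϖ : E3 → ℝ) (ε : ℝ) (ψ θ : E3 → E3) : Prop where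
  smooth : ContDiff ℝ ∞ ψ
  smooth' : ContDiff ℝ ∞ θ
  left : ∀ x, θ (ψ x) = x
  right : ∀ x, ψ (θ x) = x
  b0 : ∀ x, ‖ψ x - x‖ ≤ ε * ϖ x
  b1 : ∀ x, ‖fderiv ℝ ψ x - ContinuousLinearMap.id ℝ E3‖ ≤ ε * ϖ x
  b2 : ∀ x, ‖fderiv ℝ (fderiv ℝ ψ) x‖ ≤ ε * ϖ x
  far : ∀ x, 10 ≤ ‖x‖ → ψ x = x
  flat : ∃ C, ∀ x, ‖ψ x - x‖ ≤ C * (ϖ x) ^ 3

/-- squared norm of the gradient, as a sum of squares of partial derivatives -/
def gradSq (F : E3 → ℝ) (x : E3) : ℝ :=
  ∑ i : Fin 3, (fderiv ℝ F x (EuclideanSpace.single i 1)) ^ 2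

/-- `f` is given by a polynomial. -/
def IsPoly (f : E3 → ℝ) : Prop := ∃ p : MvPolynomial (Fin 3) ℝ,
  ∀ x, f x = MvPolynomial.eval (fun i => x i) p

end

end Pool.Agent.Tight
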