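import Pool.Agent.Lib.MP_a31e1e_gt.Defs

/-!
# Interfaces of project TIGHT (MP_a31e1e_gt)

Every module proves one `...Statement`.  The file `Assembly.lean` deduces `MainStatement`
from them.
-/

open scoped ContDiff Manifold Topology RealInnerProductSpace
open Set Metric

namespace Pool.Agent.Tight

/-! ## A. General analysis and topology (independent of the surface) -/

/-- WEIER.  `C²` polynomial approximation with a compactly supported factor. -/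
def WeierStatement : Prop :=
  ∀ (h b : E3 → ℝ), ContDiff ℝ ∞ h → ContDiff ℝ ∞ b → HasCompactSupport b → ∀ δ > 0,
    ∃ q : E3 → ℝ, IsPoly q ∧ ∀ x, ∀ k ≤ 2,
      ‖iteratedFDeriv ℝ k (fun x => b x * (q x - h x)) x‖ ≤ δ

/-- ZMAP.  The displacement `Y(x,γ)` with `F(x + Y) = F(x) + |∇F|⁴ γ`. -/
def ZmapStatement : Prop :=
  ∀ (F G : E3 → ℝ) (O K : Set E3), ContDiff ℝ ∞ F → IsPoly G → IsOpen O →
    (∀ x ∈ O, F x = G x) → IsCompact K → (∀ x ∈ K, x ∈ O ∨ fderiv ℝ F x ≠ 0) →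
    ∃ (U : Set (E3 × ℝ)) (Y : E3 × ℝ → E3), IsOpen U ∧ (∀ x ∈ K, (x, (0 : ℝ)) ∈ U) ∧
      ContDiffOn ℝ ∞ Y U ∧ (∀ x, (x, (0 : ℝ)) ∈ U → Y (x, 0) = 0) ∧
      ∀ p ∈ U, F (p.1 + Y p) = F p.1 + gradSq F p.1 ^ 2 * p.2

/-- PSIB.  Bounds for `ψ(x) = x + Y(x, ϖ³ E)`. -/
def PsiBoundsStatement : Prop :=
  ∀ (U : Set (E3 × ℝ)) (Y : E3 × ℝ → E3) (ϖ : E3 → ℝ) (K : Set E3), IsOpen U →
    ContDiffOn ℝ ∞ Y U → IsCompact K → (∀ x ∈ K, (x, (0 : ℝ)) ∈ U) →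
    (∀ x, (x, (0 : ℝ)) ∈ U → Y (x, 0) = 0) → ContDiff ℝ ∞ ϖ → (∀ x, 0 ≤ ϖ x) →
    ∀ ε > 0, ∃ δ > 0, ∀ E : E3 → ℝ, ContDiff ℝ ∞ E → tsupport E ⊆ K →
      (∀ x, ∀ k ≤ 2, ‖iteratedFDeriv ℝ k E x‖ ≤ δ) →
      ∃ ψ : E3 → E3, ContDiff ℝ ∞ ψ ∧
        (∀ x, x ∉ K → ψ x = x) ∧
        (∀ x ∈ K, (x, ϖ x ^ 3 * E x) ∈ U ∧ ψ x = x + Y (x, ϖ x ^ 3 * E x)) ∧
        (∀ x, ‖ψ x - x‖ ≤ ε * ϖ x) ∧
        (∀ x, ‖fderiv ℝ ψ x - ContinuousLinearMap.id ℝ E3‖ ≤ ε * ϖ x) ∧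
        (∀ x, ‖fderiv ℝ (fderiv ℝ ψ) x‖ ≤ ε * ϖ x) ∧
        (∃ C, ∀ x, ‖ψ x - x‖ ≤ C * ϖ x ^ 3)

/-- DIFFEO.  A smooth map close to the identity is a diffeomorphism. -/
def DiffeoStatement : Prop :=
  ∀ ψ : E3 → E3, ContDiff ℝ ∞ ψ →
    (∀ x, ‖fderiv ℝ ψ x - ContinuousLinearMap.id ℝ E3‖ ≤ 1 / 2) →
    ∃ θ : E3 → E3, ContDiff ℝ ∞ θ ∧ (∀ x, θ (ψ x) = x) ∧ ∀ x, ψ (θ x) = x

/-- ATLAS.  Charts in which `f` is a smooth immersion form a smooth atlas. -/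
def AtlasStatement : Prop :=
  ∀ (M : Type) [TopologicalSpace M] (f : M → E3),
    (∀ p, ∃ V φ a, IsChart f p V φ a) →
    ∃ (_ : ChartedSpace E2 M), IsManifold (𝓡 2) ∞ M ∧ ContMDiff (𝓡 2) 𝓘(ℝ, E3) ∞ f ∧
      ∀ p, Function.Injective (mfderiv (𝓡 2) 𝓘(ℝ, E3) f p)

/-- LEVELCHART.  A regular level surface is locally a parametrised surface. -/
def LevelChartStatement : Prop :=
  ∀ (F : E3 → ℝ) (x₀ : E3), ContDiff ℝ ∞ F → F x₀ = 0 → fderiv ℝ F x₀ ≠ 0 →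
    ∃ (V : Set E2) (φ : E2 → E3) (a : E2), IsOpen V ∧ a ∈ V ∧ φ a = x₀ ∧
      ContDiffOn ℝ ∞ φ V ∧ InjOn φ V ∧ (∀ b ∈ V, F (φ b) = 0) ∧
      (∀ b ∈ V, Function.Injective (fderiv ℝ φ b)) ∧
      (∀ W ⊆ V, IsOpen W → ∃ O : Set E3, IsOpen O ∧ φ '' W = {x | x ∈ O ∧ F x = 0})

/-- LEVELSTRONG.  From the level surface to the parametrisation. -/
def LevelStrongStatement : Prop :=
  ∀ (F : E3 → ℝ) (φ : E2 → E3) (a : E2) (c : ℝ) (ϖ : E3 → ℝ), ContDiff ℝ ∞ F →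
    ContDiffAt ℝ ∞ φ a → Function.Injective (fderiv ℝ φ a) → (∀ᶠ b in 𝓝 a, F (φ b) = 0) →
    fderiv ℝ F (φ a) ≠ 0 → StrongLevel c ϖ F (φ a) → Strong c ϖ φ a

/-- TPPCRIT. -/
def TPPCritStatement : Prop :=
  ∀ (M : Type) [TopologicalSpace M] [CompactSpace M] (g : M → ℝ), Continuous g →
    (∀ p, IsLocalMax g p → ∀ q, g q ≤ g p) → IsPreconnected {p | ∀ q, g q ≤ g p} →
    ∀ c, IsPreconnected {p | c < g p}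

/-- STRONGPERT.  A strong point is not a local maximum of a height function of `θ ∘ X`. -/
def StrongPertStatement : Prop :=
  ∀ ϖ : E3 → ℝ, ContDiff ℝ ∞ ϖ → (∀ x, 0 ≤ ϖ x) → ∀ c > 0, ∃ ε > 0, ∀ ψ θ : E3 → E3,
    PsiOK ϖ ε ψ θ → ∀ (X : E2 → E3) (a : E2), ContDiffAt ℝ ∞ X a →
      Function.Injective (fderiv ℝ X a) → Strong c ϖ X a → ∀ v : E3, v ≠ 0 →
      ¬ IsLocalMax (fun b => ⟪v, θ (X b)⟫) a

/-- ESCAPEPERT.  The same for flat points. -/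
def EscapePertStatement : Prop :=
  ∀ ϖ : E3 → ℝ, ContDiff ℝ ∞ ϖ → (∀ x, 0 ≤ ϖ x) → ∀ (ε : ℝ) (ψ θ : E3 → E3),
    PsiOK ϖ ε ψ θ → ∀ (M : Type) [TopologicalSpace M] (f : M → E3) (p : M),
      Continuous f → ϖ (f p) = 0 → Escape f p → ∀ v : E3, v ≠ 0 →
      ¬ IsLocalMax (fun q => ⟪v, θ (f q)⟫) p

/-- CWBUILD.  A finite CW structure on a subset from explicit characteristic maps. -/
def CWBuildStatement : Prop :=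
  ∀ (Z : Type) [TopologicalSpace Z] [T2Space Z] (S : Set Z) (I : ℕ → Type)
    (Φ : (n : ℕ) → I n → (Fin n → ℝ) → Z),
    (∀ n, Finite (I n)) → (∀ n, 2 < n → IsEmpty (I n)) →
    (∀ n i, ContinuousOn (Φ n i) (closedBall 0 1)) →
    (∀ n i, InjOn (Φ n i) (ball 0 1)) →
    (∀ n i, MapsTo (Φ n i) (closedBall 0 1) S) →
    (∀ n i m j, (Φ n i '' ball 0 1 ∩ Φ m j '' ball 0 1).Nonempty →
      (⟨n, i⟩ : Σ n, I n) = ⟨m, j⟩) →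
    (∀ n i, MapsTo (Φ n i) (sphere 0 1) (⋃ (m < n) (j : I m), Φ m j '' closedBall 0 1)) →
    (∀ z ∈ S, ∃ n i, z ∈ Φ n i '' closedBall 0 1) →
    HasEulerChar S ((Nat.card (I 0) : ℤ) - Nat.card (I 1) + Nat.card (I 2))

/-- CLOPEN.  A compact set which is relatively open in the zero set. -/
def ClopenStatement : Prop :=
  ∀ (P : MvPolynomial (Fin 3) ℝ) (A U : Set E3), IsCompact A → A.Nonempty → IsOpen U →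
    A ⊆ U → (∀ x ∈ U, x ∈ ZeroSet P ↔ x ∈ A) →
    P ≠ 0 ∧ A ⊆ ZeroSet P ∧ ∀ x ∈ A, connectedComponentIn (ZeroSet P) x ⊆ A

/-- STRONGCURV.  Strength from the Gauss curvature of a parametrised surface. -/
def StrongOfCurvStatement : Prop :=
  ∀ (X : E2 → E3) (a : E2) (κ B c : ℝ) (ϖ : E3 → ℝ), ContDiffAt ℝ ∞ X a →
    curv X a < 0 → curv X a ≤ -κ → 1 ≤ B → (∀ i, ‖fderiv ℝ X a (e2 i)‖ ≤ B) →
    (∀ i j, |sff X a i j| ≤ B) → 0 ≤ c * ϖ (X a) → c * ϖ (X a) * (8 * B ^ 5) ≤ κ →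
    Strong c ϖ X a

/-- bordered determinant `∇Fᵀ adj(D²F) ∇F` written with partial derivatives `g i`, `h i j` -/
def bord (g : Fin 3 → ℝ) (h : Fin 3 → Fin 3 → ℝ) : ℝ :=
  g 0 ^ 2 * (h 1 1 * h 2 2 - h 1 2 ^ 2) + g 1 ^ 2 * (h 0 0 * h 2 2 - h 0 2 ^ 2)
    + g 2 ^ 2 * (h 0 0 * h 1 1 - h 0 1 ^ 2)
    + 2 * g 0 * g 1 * (h 0 2 * h 1 2 - h 0 1 * h 2 2)
    + 2 * g 0 * g 2 * (h 0 1 * h 1 2 - h 0 2 * h 1 1)
    + 2 * g 1 * g 2 * (h 0 1 * h 0 2 - h 1 2 * h 0 0)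

/-- STRONGBORD.  Strength of a level surface from the bordered determinant. -/
def StrongOfBordStatement : Prop :=
  ∀ (F : E3 → ℝ) (x : E3) (g : Fin 3 → ℝ) (h : Fin 3 → Fin 3 → ℝ) (κ B c : ℝ)
    (ϖ : E3 → ℝ), (∀ u, fderiv ℝ F x u = ∑ i, g i * u i) →
    (∀ u v, D2 F x u v = ∑ i, ∑ j, h i j * u i * v j) → (∀ i j, h i j = h j i) →
    bord g h < 0 → bord g h ≤ -κ → 1 ≤ B → (∀ i, |g i| ≤ B) → (∀ i j, |h i j| ≤ B) →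
    0 ≤ c * ϖ x → c * ϖ x * (100 * B ^ 4) ≤ κ → StrongLevel c ϖ F x

/-! ## B. Geometry of `Sigma` -/

/-- DELTA.  The inequality behind the negative curvature of the inner sheet. -/
def DeltaStatement : Prop :=
  ∃ k > 0, ∀ e n C : ℝ, 0 ≤ e → e ≤ 2 → 0 ≤ n → 3 * n + C = 4 * e - e ^ 2 → C ^ 2 ≤ n ^ 3 →
    0 ≤ 1 + C + e ^ 2 →
    k * n ≤ 18 * n ^ 2 - 2 * (10 + 29 * e + e ^ 2) * n + e * (48 + 32 * e + 10 * e ^ 2 - e ^ 3)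

/-- first partial derivatives of `FS` -/
noncomputable def gFS (x : E3) (i : Fin 3) : ℝ :=
  match i with
  | 0 => 12 * mm x * x 0 + 96 * x 0 - 96 * x 0 * x 1
  | 1 => 12 * mm x * x 1 + 96 * x 1 + 48 * x 1 ^ 2 - 48 * x 0 ^ 2
  | 2 => 4 * mm x * x 2

/-- second partial derivatives of `FS` -/
noncomputable def hFS (x : E3) (i j : Fin 3) : ℝ :=
  match i, j with
  | 0, 0 => 72 * x 0 ^ 2 + 12 * mm x + 96 - 96 * x 1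
  | 0, 1 => 72 * x 0 * x 1 - 96 * x 0
  | 0, 2 => 24 * x 0 * x 2
  | 1, 0 => 72 * x 0 * x 1 - 96 * x 0
  | 1, 1 => 72 * x 1 ^ 2 + 12 * mm x + 96 + 96 * x 1
  | 1, 2 => 24 * x 1 * x 2
  | 2, 0 => 24 * x 0 * x 2
  | 2, 1 => 24 * x 1 * x 2
  | 2, 2 => 8 * x 2 ^ 2 + 4 * mm x

/-- SIGDER.  Derivatives of `FS`. -/
def SigDerStatement : Prop :=
  ∀ x : E3, (∀ u, fderiv ℝ FS x u = ∑ i, gFS x i * u i) ∧
    (∀ u v, D2 FS x u v = ∑ i, ∑ j, hFS x i j * u i * v j)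

/-- BORDID.  The bordered determinant of `FS` on the inner sheet. -/
def BordIdStatement : Prop :=
  ∀ (x : E3) (q : ℝ), tt x = q ^ 2 → mm x = -4 * q →
    bord (gFS x) (hFS x) = -294912 * q *
      (18 * nn x ^ 2 - 2 * (10 + 29 * (2 - q) + (2 - q) ^ 2) * nn x +
        (2 - q) * (48 + 32 * (2 - q) + 10 * (2 - q) ^ 2 - (2 - q) ^ 3))

/-- SIGREG.  Elementary facts on `Sigma`. -/
def SigRegStatement : Prop :=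
  (∀ x, tt x = 4 * (ell 0 x * ell 1 x * ell 2 x)) ∧
  (∀ x, FS x = 0 → nn x ≤ 4 → x ∈ Prism ∧ nn x < 4 ∧ Lam x ≤ 0) ∧
  (∀ x ∈ Prism, FS x = 0 → nn x < 4) ∧
  (∀ x ∈ Prism, Lam x = 0 → FS x = 0 ∧ 0 ≤ mm x) ∧
  (∀ x, FS x = 0 → nn x ≤ 4 → fderiv ℝ FS x ≠ 0) ∧
  (∀ x, FS x = 0 → nn x ≤ 4 → ‖x‖ ≤ 5) ∧
  (∀ x ∈ Hull, ‖x‖ ≤ 5) ∧
  (∀ x, FS x = 0 → nn x ≤ 1 / 100 → x 2 ^ 2 = qq x ∨ x 2 ^ 2 = qo x)

/-- SIGSTRONG. -/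
def SigStrongStatement : Prop :=
  ∀ ρ l : ℝ, 0 < ρ → 0 < l → l ≤ 1 / 100 → ∃ c > 0, ∀ x, FS x = 0 → x ∈ PrismO → Lam x < 0 →
    (4 * ρ ^ 2 ≤ nn x ∨ 0 ≤ x 2) → 0 < nn x → StrongLevel c (varpi l) FS x

/-- ROOFESC.  The flat point of the roof. -/
def RoofEscapeStatement : Prop :=
  ∀ v : E3, v ≠ 0 → ∃ κ > 0, ∃ᶠ x in 𝓝 (!₂[0, 0, 1] : E3), FS x = 0 ∧
    κ * ‖x - !₂[0, 0, 1]‖ ^ 3 ≤ ⟪v, x - !₂[0, 0, 1]⟫ ∧ x ≠ !₂[0, 0, 1]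

/-- SIGN.  `ψ` preserves the signs of the `ell j` and fixes the faces of the prism. -/
def SignStatement : Prop :=
  ∀ l : ℝ, 0 < l → l ≤ 1 / 100 → ∃ ε > 0, ∀ ψ θ : E3 → E3, PsiOK (varpi l) ε ψ θ →
    ∀ x j, (0 < ell j x → ell j x / 2 ≤ ell j (ψ x)) ∧ (ell j x = 0 → ψ x = x) ∧
      (ell j x < 0 → ell j (ψ x) < 0)

/-- CONV.  Strict convexity of the perturbed body. -/
def ConvStatement : Prop :=
  ∀ l : ℝ, 0 < l → l ≤ 1 / 100 → ∃ ε > 0, ∀ ψ θ : E3 → E3, PsiOK (varpi l) ε ψ θ →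
    ∀ x y, ψ x ∈ Hull → ψ y ∈ Hull → x ≠ y → ∀ t : ℝ, 0 < t → t < 1 →
      (ψ ((1 - t) • x + t • y) ∈ PrismO ∧ Lam (ψ ((1 - t) • x + t • y)) < 0) ∨
      (∃ j, ell j x = 0 ∧ ell j y = 0 ∧ ψ ((1 - t) • x + t • y) = (1 - t) • x + t • y ∧
        mm ((1 - t) • x + t • y) < 0)

/-- GRADHULL.  Supporting planes of the perturbed body. -/
def GradHullStatement : Prop :=
  ∀ l : ℝ, 0 < l → l ≤ 1 / 100 → ∃ ε > 0, ∀ ψ θ : E3 → E3, PsiOK (varpi l) ε ψ θ →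
    ∀ x, ψ x ∈ PrismO → Lam (ψ x) = 0 → DifferentiableAt ℝ (fun z => Lam (ψ z)) x ∧
      ∀ y, ψ y ∈ Hull → y ≠ x → fderiv ℝ (fun z => Lam (ψ z)) x (y - x) < 0

/-- FACE.  Faces of the perturbed body. -/
def FaceStatement : Prop :=
  ∀ l : ℝ, 0 < l → l ≤ 1 / 100 → ∃ ε > 0, ∀ ψ θ : E3 → E3, PsiOK (varpi l) ε ψ θ →
    ∀ v : E3, v ≠ 0 → ∃ y₀, ψ y₀ ∈ Hull ∧ (∀ y, ψ y ∈ Hull → ⟪v, y⟫ ≤ ⟪v, y₀⟫) ∧
      ((Lam (ψ y₀) = 0 ∧ ∀ y, ψ y ∈ Hull → ⟪v, y⟫ = ⟪v, y₀⟫ → y = y₀) ∨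
        ∃ j, ∀ y, ψ y ∈ Hull → (⟪v, y⟫ = ⟪v, y₀⟫ ↔ ell j y = 0))

/-- TIGHT.  Tightness of the perturbed surface. -/
def TightStatement : Prop :=
  ∀ l : ℝ, 0 < l → l ≤ 1 / 100 → ∀ (M : Type) [TopologicalSpace M] [CompactSpace M]
    (f : M → E3), Model l f → ∃ ε > 0, ∀ ψ θ : E3 → E3, PsiOK (varpi l) ε ψ θ → TPP (θ ∘ f)

/-! ## C. The core and the floor -/

/-- the unmodified core -/
noncomputable def coreX (l : ℝ) (b : E2) : E3 :=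
  !₂[l * xiX b, l * xiY b,
    -1 - cc (pl (l * xiX b) (l * xiY b)) / 2 - 10 * l ^ 3 * (b 1 * Real.sin (3 * b 0))]

/-- COREZERO.  The zero set of `GG` is the ruled surface, without solitary points. -/
def CoreZeroStatement : Prop :=
  ∀ l : ℝ, 0 < l → ∀ x, GG l x = 0 ↔ ∃ b, x = coreX l b

noncomputable def AA (t c : ℝ) : ℝ :=
  3 / 10 * (t - 2 * c) * t * (8 * (t ^ 2 - t * c + 1) + 3 / 10 * (t - 2 * c) * (t ^ 3 - 8 * c))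
noncomputable def BB (t c : ℝ) : ℝ :=
  2 + 4 * c ^ 2 + 3 / 10 * (t - 2 * c) * (t + 2 * c - c * t ^ 2)

/-- CORECURV.  The curvature of the core. -/
def CoreCurvStatement : Prop :=
  ∀ (l : ℝ) (b : E2), curv (coreX l) b = -(100 * l ^ 10 *
    (Real.sin (3 * b 0) ^ 2 * AA (b 1) (Real.cos (3 * b 0)) + BB (b 1) (Real.cos (3 * b 0)) ^ 2))

/-- COREINEQ. -/
def CoreIneqStatement : Prop :=
  (∀ t c s : ℝ, c ^ 2 + s ^ 2 = 1 → ¬ (s = 0 ∧ t * c = 4) → 0 < s ^ 2 * AA t c + BB t c ^ 2) ∧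
  ∀ R : ℝ, ∃ k > 0, ∀ t c s : ℝ, c ^ 2 + s ^ 2 = 1 → |t| ≤ R →
    k * ((t ^ 2 + 2 * t * c + 1 - 25) ^ 2 + t ^ 2 * s ^ 2) ≤ s ^ 2 * AA t c + BB t c ^ 2

/-- FLOORREG.  Regularity of the floor. -/
def FloorRegStatement : Prop :=
  ∀ ρ l : ℝ, Par ρ l →
    (∀ b, nn (floorX ρ l b) ≤ 9 * ρ ^ 2 → ContDiffAt ℝ ∞ (floorX ρ l) b ∧
      Function.Injective (fderiv ℝ (floorX ρ l) b) ∧ |floorX ρ l b 2 + 1| < 1 / 8) ∧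
    (∀ b, nn (floorX ρ l b) ≤ ρ ^ 2 → floorX ρ l b = coreX l b) ∧
    (∀ b, nn (floorX ρ l b) < ρ ^ 2 → floorX ρ l =ᶠ[𝓝 b] coreX l) ∧
    (∀ b, 4 * ρ ^ 2 ≤ nn (floorX ρ l b) → nn (floorX ρ l b) ≤ 9 * ρ ^ 2 →
      FS (floorX ρ l b) = 0 ∧ floorX ρ l b 2 < 0 ∧ floorX ρ l b 2 = hS (floorX ρ l b)) ∧
    (∀ x : E3, ∃ b, l * xiX b = x 0 ∧ l * xiY b = x 1) ∧
    (∀ b, nn (floorX ρ l b) = l ^ 2 * (b 1 ^ 2 + 2 * b 1 * Real.cos (3 * b 0) + 1))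

/-- FLOORINJ.  The lifted floor is injective up to `(u,t) ~ (u+π,-t)`. -/
def FloorInjStatement : Prop :=
  ∀ ρ l : ℝ, Par ρ l →
    (∀ b b' : E2, floorP ρ l b = floorP ρ l b' → ∃ k : ℤ, b' 0 = b 0 + k * Real.pi ∧
      b' 1 = (-1) ^ k * b 1) ∧
    (∀ b b' : E2, (∃ k : ℤ, b' 0 = b 0 + k * Real.pi ∧ b' 1 = (-1) ^ k * b 1) →
      floorP ρ l b = floorP ρ l b')

/-- FLOORSTRONG. -/
def FloorStrongStatement : Prop :=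
  ∀ ρ l : ℝ, Par ρ l → ∃ c > 0, ∀ b, nn (floorX ρ l b) ≤ 4 * ρ ^ 2 → ¬ FlatB b →
    Strong c (varpi l) (floorX ρ l) b

/-- FLOORESC.  The flat points of the floor. -/
def FloorEscapeStatement : Prop :=
  ∀ ρ l : ℝ, Par ρ l → ∀ b, FlatB b → varpi l (floorX ρ l b) = 0 ∧
    ∀ v : E3, v ≠ 0 → ∃ κ > 0, ∃ᶠ b' in 𝓝 b,
      κ * ‖floorX ρ l b' - floorX ρ l b‖ ^ 3 ≤ ⟪v, floorX ρ l b' - floorX ρ l b⟫ ∧
      floorX ρ l b' ≠ floorX ρ l b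

/-- TRANS.  Admissible parameters exist. -/
def TransStatement : Prop := ∃ ρ l : ℝ, Par ρ l

/-! ## D. The smooth defining function -/

/-- FEX. -/
def FexStatement : Prop :=
  ∀ ρ l : ℝ, Par ρ l → ∃ F : E3 → ℝ, ContDiff ℝ ∞ F ∧
    (∀ x, nn x < ρ ^ 2 / 4 → |x 2 + 1| < 1 / 8 → F x = GG l x) ∧
    (∀ x, 9 * ρ ^ 2 ≤ nn x ∨ 1 / 4 ≤ |x 2 + 1| → F x = FS x) ∧
    (∀ x, nn x < 4 → (F x = 0 ↔ x ∈ Img ρ l)) ∧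
    (∀ x ∈ Img ρ l, (nn x < ρ ^ 2 / 4 ∧ |x 2 + 1| < 1 / 8) ∨ fderiv ℝ F x ≠ 0)

/-- CRITG.  Critical points of `GG` and zeros of `flc` lie in the core cylinder. -/
def CritGStatement : Prop :=
  ∀ ρ l : ℝ, Par ρ l → ∀ x, gradSq (GG l) x = 0 ∨ flc l x = 0 →
    nn x < ρ ^ 2 / 4 ∧ |x 2 + 1| < 1 / 8

/-- ALG.  The polynomial and the diffeomorphism. -/
def AlgStatement : Prop :=
  ∀ ρ l : ℝ, Par ρ l → ∀ ε > 0, ∃ (P : MvPolynomial (Fin 3) ℝ) (ψ θ : E3 → E3) (U : Set E3),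
    PsiOK (varpi l) ε ψ θ ∧ IsOpen U ∧ (∀ y ∈ Img ρ l, θ y ∈ U) ∧
    ∀ x ∈ U, x ∈ ZeroSet P ↔ ψ x ∈ Img ρ l

/-! ## E. The surface as a topological space -/

/-- MCOMP. -/
def CompStatement : Prop := ∀ ρ l : ℝ, Par ρ l → IsCompact (Surf ρ l) ∧ (Surf ρ l).Nonempty

/-- MCHF.  Charts of the floor. -/
def ChartFloorStatement : Prop :=
  ∀ ρ l : ℝ, Par ρ l → ∀ (b : E2) (p : Surf ρ l), nn (floorX ρ l b) < 9 * ρ ^ 2 →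
    (p : E3 × ℂ) = floorP ρ l b → ∃ V φ, IsChart (fun p : Surf ρ l => (p : E3 × ℂ).1) p V φ b ∧
      (∀ b' ∈ V, ((φ b' : Surf ρ l) : E3 × ℂ) = floorP ρ l b')

/-- MCHS.  Charts of the rest. -/
def ChartSigStatement : Prop :=
  ∀ ρ l : ℝ, Par ρ l → ∀ p : Surf ρ l, (p : E3 × ℂ).1 ∈ SigPart ρ →
    (4 * ρ ^ 2 < nn (p : E3 × ℂ).1 ∨ 1 / 8 < |(p : E3 × ℂ).1 2 + 1|) →
    ∃ V φ a, IsChart (fun p : Surf ρ l => (p : E3 × ℂ).1) p V φ a ∧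
      (∀ b' ∈ V, FS ((φ b' : Surf ρ l) : E3 × ℂ).1 = 0)

/-- MODEL. -/
def ModelStatement : Prop :=
  ∀ ρ l : ℝ, Par ρ l → Model l (fun p : Surf ρ l => (p : E3 × ℂ).1)

/-- CW. -/
def CWStatement : Prop := ∀ ρ l : ℝ, Par ρ l → HasEulerChar (Surf ρ l) (-3)

end Pool.Agent.Tight
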