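import Mathlib

/-!
# MP_a31e1e_gt : a tight algebraic surface in E^3 with odd Euler characteristic

Definitions used in the statement.  Project TIGHT.
-/

open scoped ContDiff Manifold Topology RealInnerProductSpace
open Set

namespace Pool.Agent.Tight

/-- The plane and Euclidean three-space. -/
abbrev E2 := EuclideanSpace ℝ (Fin 2)
abbrev E3 := EuclideanSpace ℝ (Fin 3)

/-! ## The statement -/

/-- The real zero set of a polynomial in three variables. -/
def ZeroSet (P : MvPolynomial (Fin 3) ℝ) : Set E3 :=
  {x | MvPolynomial.eval (fun i => x i) P = 0}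

/-- Two-piece property: the preimage of every open half-space is connected (possibly empty). -/
def TPP {M : Type} [TopologicalSpace M] (f : M → E3) : Prop :=
  ∀ (v : E3) (c : ℝ), v ≠ 0 → IsPreconnected {p : M | c < ⟪v, f p⟫}

/-- The image of `f` is a union of connected components of the zero set of a nonzero polynomial. -/
def AlgebraicImage {M : Type} (f : M → E3) : Prop :=
  ∃ P : MvPolynomial (Fin 3) ℝ, P ≠ 0 ∧ Set.range f ⊆ ZeroSet P ∧
    ∀ p : M, connectedComponentIn (ZeroSet P) (f p) ⊆ Set.range f

/-- `M` has a finite CW structure (Mathlib) of dimension at most two in which the numbers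
of cells satisfy `#0-cells - #1-cells + #2-cells = χ`. -/
def HasEulerChar (M : Type) [TopologicalSpace M] (χ : ℤ) : Prop :=
  ∃ C : Topology.CWComplex (Set.univ : Set M),
    (∀ n, Finite (C.cell n)) ∧ (∀ n, 2 < n → IsEmpty (C.cell n)) ∧
    (Nat.card (C.cell 0) : ℤ) - Nat.card (C.cell 1) + Nat.card (C.cell 2) = χ

/-- `f : M → F` is of class `C^∞` (`M` is modelled on `E`). -/
def IsSmoothMap (E : Type) {F M : Type} [NormedAddCommGroup E] [NormedSpace ℝ E]
    [NormedAddCommGroup F] [NormedSpace ℝ F] [TopologicalSpace M] [ChartedSpace E M]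
    (f : M → F) : Prop :=
  ContMDiff 𝓘(ℝ, E) 𝓘(ℝ, F) ∞ f

/-- The derivative of `f : M → F` is injective at every point (`M` is modelled on `E`). -/
def HasInjectiveDeriv (E : Type) {F M : Type} [NormedAddCommGroup E] [NormedSpace ℝ E]
    [NormedAddCommGroup F] [NormedSpace ℝ F] [TopologicalSpace M] [ChartedSpace E M]
    (f : M → F) : Prop :=
  ∀ p : M, Function.Injective (mfderiv 𝓘(ℝ, E) 𝓘(ℝ, F) f p)

end Pool.Agent.Tight
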